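import Mathlib
import Pool.Agent.V11299.OV.Main
import Pool.Agent.H705R2.Quad2

/-!
# Overlaps under affine relations force Lebesgue measure, uniformly and without entropy

Let `p, q ≥ 2` be multiplicatively independent, `a ≠ 0` and `b` integers. Suppose that a part of mass
`c` of a `×p`-invariant probability measure `μ` is coupled with a part of a `×p`-invariant
probability measure `ν` in such a way that `b y - a x = t` for the coupled points, where `t` is
irrational (for instance: `μ` and its translate by `t` have a common part of mass `c`). Then most of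
the images of `μ` under `x ↦ q ^ i x`, along every long window of exponents, contain `c` times
Lebesgue measure up to a given error in the weak topology. The length of the windows does not depend
on `t`, `μ`, `ν`, the coupling or `c`. Nothing is assumed about entropy or ergodicity.
-/

set_option autoImplicit false

open MeasureTheory Filter Topology Set

/-- **Uniform theorem for overlapping `×p`-invariant measures.** The condition on `t` is that it has
infinite order, or that all the sets `{p ^ m q ^ j t : m ≥ 0}` have at least `M` elements. -/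
theorem Pool.Agent.Results.MP_96e181_an.AffineOverlap.result :
    ∀ (p q : ℕ), 2 ≤ p → 2 ≤ q → Irrational (Real.log p / Real.log q) →
    ∀ (a b : ℤ), a ≠ 0 → ∀ f : C(UnitAddCircle, ℝ), (∀ x, 0 ≤ f x) →
    ∀ ε δ : ℝ, 0 < ε → 0 < δ →
      ∃ M : ℕ, ∀ t : UnitAddCircle,
        (¬ IsOfFinAddOrder t ∨ ∀ j : ℕ, (M : ℕ∞) ≤ {y | ∃ m : ℕ, y = (p ^ m * q ^ j) • t}.encard) →
        ∀ μ ν : Measure UnitAddCircle, IsProbabilityMeasure μ → IsProbabilityMeasure ν →
          MeasurePreserving (fun x : UnitAddCircle => p • x) μ μ →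
          MeasurePreserving (fun x : UnitAddCircle => p • x) ν ν →
          ∀ ρ : Measure (UnitAddCircle × UnitAddCircle),
            ρ.map Prod.fst ≤ μ → ρ.map Prod.snd ≤ ν → (∀ᵐ z ∂ρ, b • z.2 - a • z.1 = t) →
            ∀ s n : ℕ, M ≤ n →
              ({i : ℕ | i < n ∧ ∫ x, f (q ^ (s + i) • x) ∂μ <
                ρ.real univ * (∫ x, f x) - ε}.ncard : ℝ) ≤ δ * n := by
  classical
  intro p q hp hq hirr a b ha f hf ε δ hε hδ
  have hind := Pool.Agent.H705R2.mulIndep_of_irrational hp hq hirr
  obtain ⟨M, hM⟩ := Pool.Agent.V11299.OV.main hp hq hind ha b f hf hε hδ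
  refine ⟨M, fun t ht μ ν hμ hν hμp hνp ρ h1 h2 h3 s n hn => ?_⟩
  have ht' : ∀ j : ℕ, (M : ℕ∞) ≤ (range fun m : ℕ => p ^ m • q ^ j • t).encard := by
    intro j
    rcases ht with ht | ht
    · have hinf := Pool.Agent.W765.Det.orbit_infinite hp
        (Pool.Agent.W765.Det.not_torsion_smul ht (n := q ^ j) (by positivity))
      rw [hinf.encard_eq]
      exact le_top
    · convert ht j using 2
      ext y
      simp only [mem_range, mem_ofPred_eq, mul_smul]
      exact ⟨fun ⟨m, hm⟩ => ⟨m, hm.symm⟩, fun ⟨m, hm⟩ => ⟨m, hm.symm⟩⟩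
  have h4 := hM t ht' μ ν hμ hν hμp hνp ρ h1 h2 h3 s n hn
  refine le_trans (le_of_eq ?_) h4
  have h5 : {i : ℕ | i < n ∧ ∫ x, f (q ^ (s + i) • x) ∂μ < ρ.real univ * (∫ x, f x) - ε} =
      (((Finset.range n).filter (fun i => ∫ x, f (q ^ (s + i) • x) ∂μ <
        ρ.real univ * (∫ x, f x) - ε) : Finset ℕ) : Set ℕ) := by
    ext i
    simp
  rw [h5, Set.ncard_coe_finset]
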