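import Pool.Agent.V11299.FG.Main

/-!
# Local rigidity at Lebesgue measure is equivalent to the full conjecture

`Exceptional p q μ`: `μ` is a Borel probability measure on `R/Z`, invariant under `x ↦ p x` and
`x ↦ q x`, atomless, jointly ergodic (every Borel set `A` with `p⁻¹ A = A = q⁻¹ A` has measure `0` or
`1`) and different from Lebesgue measure. `Singular p q μ`: the same with singular to Lebesgue
measure instead of jointly ergodic and different from Lebesgue measure.

The multiplications `x ↦ k x`, `k ≥ 1`, act on the exceptional measures, for `k` prime to `p q` by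
surjections; the images of ONE exceptional measure accumulate at Lebesgue measure, and the absolute
values of their first Fourier coefficients come arbitrarily close to zero without vanishing. So the
conjecture for `p, q` holds as soon as it holds near Lebesgue measure, or as soon as there is a gap
`(0, δ)` in the absolute values of the first Fourier coefficients.

The gap theorem rests on the following fact (`Pool/Agent/V11299/FG/Sing.lean`): the nonzero Fourier
coefficients of an atomless singular measure on the circle are not bounded away from zero. Proof: if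
they are at least `δ` in absolute value, take an element `g` of least norm in the weak closure in
`L²(μ)` of the characters with nonzero integral (as in the proof of Cohen's idempotent theorem by
Amemiya and Ito). Either `g μ` has only finitely many nonzero Fourier coefficients, so that it is
absolutely continuous, or two translates of the coefficients of `g μ` are close, so that the
coefficients along some infinite arithmetic progression are at least `δ`, against Wiener's lemma.
-/

set_option autoImplicit false

open MeasureTheory Filter Topology Set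

namespace Pool.Agent.Results.MP_96e181_an.LocalRigidity

open Pool.Agent.V11299.FG

/-- **Local rigidity at Lebesgue measure is equivalent to the full conjecture.** Let `p, q ≥ 2`.
(1) The image of an exceptional measure under `x ↦ k x`, `k ≥ 1`, is exceptional, and if `k` is prime
to `p q` every exceptional measure is such an image. (2) For every exceptional `μ`: Lebesgue measure
is in the weak closure of the images of `μ` under the maps `x ↦ k x`, and for every `δ > 0` one of
these images has a first Fourier coefficient different from zero and smaller than `δ` in absolute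
value. (3) Equivalent are: there are no exceptional measures; only finitely many; only finitely many
values of `|∫ e(x) dμ|` for exceptional `μ`; the set of exceptional measures is weakly closed; there
is `δ > 0` such that `∫ e(x) dμ` is zero or at least `δ` in absolute value for all exceptional `μ`;
there are `N` and `ε > 0` such that one of the coefficients `∫ e(m x) dμ`, `1 ≤ m ≤ N`, is at least
`ε` in absolute value for all exceptional `μ`. (4) The conjecture for `p, q` (all atomless invariant
probability measures are equal to Lebesgue measure) is equivalent to each of the last two properties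
for all atomless singular invariant probability measures. -/
theorem result (p q : ℕ) (hp : 2 ≤ p) (hq : 2 ≤ q) :
    (∀ μ : Measure UnitAddCircle, Exceptional p q μ → ∀ k : ℕ, 1 ≤ k →
      Exceptional p q (μ.map fun x => k • x) ∧
      (Nat.Coprime k (p * q) →
        ∃ ν : Measure UnitAddCircle, Exceptional p q ν ∧ ν.map (fun x => k • x) = μ)) ∧
    (∀ μ : Measure UnitAddCircle, Exceptional p q μ →
      (∀ κ : ProbabilityMeasure UnitAddCircle, (κ : Measure UnitAddCircle) = volume →
        κ ∈ closure {ν : ProbabilityMeasure UnitAddCircle |
          Exceptional p q (ν : Measure UnitAddCircle) ∧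
          ∃ k : ℕ, 1 ≤ k ∧ (ν : Measure UnitAddCircle) = μ.map fun x => k • x}) ∧
      ∀ δ : ℝ, 0 < δ → ∃ k : ℕ, 1 ≤ k ∧
        0 < ‖∫ x, (fourier 1 x : ℂ) ∂(μ.map fun x => k • x)‖ ∧
        ‖∫ x, (fourier 1 x : ℂ) ∂(μ.map fun x => k • x)‖ < δ) ∧
    List.TFAE [
      ∀ μ : Measure UnitAddCircle, ¬ Exceptional p q μ,
      {μ : Measure UnitAddCircle | Exceptional p q μ}.Finite,
      {r : ℝ | ∃ μ : Measure UnitAddCircle, Exceptional p q μ ∧
        r = ‖∫ x, (fourier 1 x : ℂ) ∂μ‖}.Finite,
      IsClosed {μ : ProbabilityMeasure UnitAddCircle |
        Exceptional p q (μ : Measure UnitAddCircle)},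
      ∃ δ : ℝ, 0 < δ ∧ ∀ μ : Measure UnitAddCircle, Exceptional p q μ →
        ∫ x, (fourier 1 x : ℂ) ∂μ = 0 ∨ δ ≤ ‖∫ x, (fourier 1 x : ℂ) ∂μ‖,
      ∃ (N : ℕ) (ε : ℝ), 0 < ε ∧ ∀ μ : Measure UnitAddCircle, Exceptional p q μ →
        ∃ m : ℕ, 1 ≤ m ∧ m ≤ N ∧ ε ≤ ‖∫ x, (fourier m x : ℂ) ∂μ‖] ∧
    List.TFAE [
      ∀ μ : Measure UnitAddCircle, IsProbabilityMeasure μ →
        MeasurePreserving (fun x => p • x) μ μ → MeasurePreserving (fun x => q • x) μ μ →
        (∀ x, μ {x} = 0) → μ = volume,
      ∃ δ : ℝ, 0 < δ ∧ ∀ μ : Measure UnitAddCircle, Singular p q μ →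
        ∫ x, (fourier 1 x : ℂ) ∂μ = 0 ∨ δ ≤ ‖∫ x, (fourier 1 x : ℂ) ∂μ‖,
      ∃ (N : ℕ) (ε : ℝ), 0 < ε ∧ ∀ μ : Measure UnitAddCircle, Singular p q μ →
        ∃ m : ℕ, 1 ≤ m ∧ m ≤ N ∧ ε ≤ ‖∫ x, (fourier m x : ℂ) ∂μ‖] := by
  have hq1 : 1 ≤ q := by omega
  refine ⟨fun μ h k hk => ⟨h.map hp hq1 hk, fun hc => ?_⟩, fun μ h => ⟨h.closure hp hq1, ?_⟩,
    tfae_erg hp hq1, tfae_all hp hq1⟩
  · exact h.lift hk (Nat.Coprime.coprime_mul_right_right hc) (Nat.Coprime.coprime_mul_left_right hc)
  · intro δ hδ
    have hprob := h.prob
    obtain ⟨k, hk, h1, h2⟩ := gap h.atomless (h.sing hp hq1) hδ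
    exact ⟨k, hk, norm_pos_iff.2 h1, h2⟩

end Pool.Agent.Results.MP_96e181_an.LocalRigidity
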