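import Pool.Agent.V11299.FG.Trans2

/-!
# Fibre multiplicities and rational translates of jointly ergodic measures

Let `μ` be a jointly ergodic probability measure for `×p, ×q`, different from Lebesgue measure (any
entropy; `q = 1` is allowed in the first two parts). For `k` prime to `p q` the conditional measures
of `μ` over `x ↦ k x` are uniform on a constant number `j` of points; Host's argument bounds `j` by
the Fourier coefficients. Along the powers of `k` the multiplicities are bounded, so that `μ` is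
singular to all but finitely many of its translates by points of `k`-power order, and the images of
`μ` under `x ↦ k ^ n x`, `n` large, are singular to all of them and have nonzero Fourier coefficients
in all residue classes mod `k ^ l`. For coprime `p, q` the translates by points whose order is not
prime to `p q` are all singular to `μ`. (For irrational translates see `IrrationalTranslates`.)
-/

set_option autoImplicit false

open MeasureTheory Filter Topology Set
open scoped ENNReal

namespace Pool.Agent.Results.MP_96e181_an.RationalTranslates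

open Pool.Agent.V11299.FG Pool.Agent.Y139.GR
open Pool.Agent.W764.FB hiding fc

lemma fs_ncard (k : ℕ) (A : Set UnitAddCircle) (x : UnitAddCircle) :
    fs k 1 (A.indicator 1) x =
      ({i : ℕ | i < k ∧ x + (((i : ℝ) / k : ℝ) : UnitAddCircle) ∈ A}.ncard : ℕ) := by
  classical
  have e : {i : ℕ | i < k ∧ x + (((i : ℝ) / k : ℝ) : UnitAddCircle) ∈ A} =
      (((Finset.range k).filter fun i => x + hh k 1 i ∈ A : Finset ℕ) : Set ℕ) := by
    ext i
    unfold hh
    simp
  rw [e, Set.ncard_coe_finset, Finset.card_filter]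
  unfold fs
  rw [pow_one]
  push_cast
  refine Finset.sum_congr rfl fun j _ => ?_
  by_cases h : x + hh k 1 j ∈ A
  · rw [indicator_of_mem h, if_pos h]; rfl
  · rw [indicator_of_notMem h, if_neg h]

/-- **Fibre multiplicities and rational translates.** Let `μ` be a probability measure on the circle
invariant under `x ↦ p x`, `p ≥ 2`, and `x ↦ q x`, `q ≥ 1`, and jointly ergodic. (1) For `k ≥ 1` prime
to `p q` there are a Borel set `A` with `μ(A) = 1` and `j ≥ 1` such that for almost all `x` exactly
`j` of the points `x + i / k`, `i < k`, are in `A`, and `j μ` is the restriction to `A` of the sum of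
the translates of `μ` by `i / k`; and `|F| j |μ^(m)| ^ 2 ≤ k` for all `m` and all finite sets `F` of
numbers `p ^ a q ^ b` whose multiples by `m` are pairwise incongruent mod `k`. (2) If `μ` is not
Lebesgue measure, `k ≥ 2` is prime to `p q` and `Q` is the group of the `t` with `k ^ n t = 0` for
some `n`, then there is `n₀` such that `μ` is singular to its translates by all `t` in `Q` with
`k ^ n₀ t ≠ 0`, and for `n ≥ n₀` the image of `μ` under `x ↦ k ^ n x` is singular to its translates
by all nonzero `t` in `Q`, and each class `r mod k ^ l` contains infinitely many `m` with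
`μ^(k ^ n m) ≠ 0`. (3) If `μ` is not Lebesgue measure and `p, q ≥ 2` are coprime, `μ` is singular to
its translates by all points whose order is finite and not prime to `p q`. -/
theorem result (p q : ℕ) (hp : 2 ≤ p) (hq : 1 ≤ q) (μ : Measure UnitAddCircle)
    [IsProbabilityMeasure μ] (hip : MeasurePreserving (fun x => p • x) μ μ)
    (hiq : MeasurePreserving (fun x => q • x) μ μ) (he : JointlyErgodic p q μ) :
    (∀ k : ℕ, 1 ≤ k → Nat.Coprime k (p * q) → ∃ (j : ℕ) (A : Set UnitAddCircle),
      1 ≤ j ∧ MeasurableSet A ∧ μ Aᶜ = 0 ∧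
      (∀ᵐ x ∂μ, {i : ℕ | i < k ∧ x + (((i : ℝ) / k : ℝ) : UnitAddCircle) ∈ A}.ncard = j) ∧
      (j : ℝ≥0∞) • μ = (∑ i ∈ Finset.range k,
        μ.map (fun x => x + (((i : ℝ) / k : ℝ) : UnitAddCircle))).restrict A ∧
      ∀ (m : ℤ) (F : Finset ℕ), (∀ s ∈ F, ∃ a b : ℕ, s = p ^ a * q ^ b) →
        (∀ s ∈ F, ∀ t ∈ F, s ≠ t → ¬ (k : ℤ) ∣ (m * s - m * t)) →
        (F.card : ℝ) * j * ‖∫ x, (fourier m x : ℂ) ∂μ‖ ^ 2 ≤ k) ∧
    (μ ≠ volume →
      (∀ k : ℕ, 2 ≤ k → Nat.Coprime k (p * q) → ∃ n₀ : ℕ,
        (∀ t : UnitAddCircle, (∃ n : ℕ, (k ^ n) • t = 0) → (k ^ n₀) • t ≠ 0 →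
          (μ.map fun x => x + t) ⟂ₘ μ) ∧
        ∀ n : ℕ, n₀ ≤ n →
          (∀ t : UnitAddCircle, (∃ n : ℕ, (k ^ n) • t = 0) → t ≠ 0 →
            ((μ.map fun x => (k ^ n) • x).map fun x => x + t) ⟂ₘ (μ.map fun x => (k ^ n) • x)) ∧
          ∀ (l : ℕ) (r : ℤ), {m : ℤ | m ≡ r [ZMOD ((k ^ l : ℕ) : ℤ)] ∧
            ∫ x, (fourier (((k ^ n : ℕ) : ℤ) * m) x : ℂ) ∂μ ≠ 0}.Infinite) ∧
      (2 ≤ q → Nat.Coprime p q → ∀ t : UnitAddCircle, 0 < addOrderOf t →
        ¬ Nat.Coprime (addOrderOf t) (p * q) → (μ.map fun x => x + t) ⟂ₘ μ)) := by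
  refine ⟨fun k hk hkpq => ?_, fun hne => ⟨fun k hk hkpq => ?_,
    fun hq2 hpq t ht0 ht => trans_pq hp hq2 hpq hip hiq he hne ht0 ht⟩⟩
  · have hkp := Nat.Coprime.coprime_mul_right_right hkpq
    have hkq := Nat.Coprime.coprime_mul_left_right hkpq
    obtain ⟨j, A, hA, hA0, h⟩ := exists_slices hk hkp hkq hip hiq he
    obtain ⟨h1, h2, h3⟩ := h 1
    rw [pow_one] at h2 h3
    refine ⟨j 1, A, h1, hA, hA0, ?_, ?_, fun m F hF hd => ?_⟩
    · filter_upwards [h3] with x hx
      rw [fs_ncard] at hx
      exact_mod_cast hx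
    · rw [h2]
      unfold mu1 hh
      simp only [pow_one]
    · refine mult_bound hk h2 (fun s hs => ?_) hd
      obtain ⟨a, b, rfl⟩ := hF s hs
      exact Pool.Agent.H847R3.XpXq.mp_mul (Pool.Agent.H847R3.XpXq.mp_pow hip a)
        (Pool.Agent.H847R3.XpXq.mp_pow hiq b)
  · have hkp := Nat.Coprime.coprime_mul_right_right hkpq
    have hkq := Nat.Coprime.coprime_mul_left_right hkpq
    obtain ⟨n₀, h1, h2⟩ := rational_translates hp hk hkp hkq hip hiq he hne
    refine ⟨n₀, h1, fun n hn => ⟨h2 n hn, fun l r => ?_⟩⟩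
    have hprob : IsProbabilityMeasure (μ.map fun x : UnitAddCircle => (k ^ n) • x) :=
      Measure.isProbabilityMeasure_map (meas_nsmul _).aemeasurable
    have h3 := all_classes_inf (by omega : 1 ≤ p) hq hk hkp hkq (mp_map' hip (k ^ n))
      (mp_map' hiq (k ^ n)) (erg_map he (k ^ n)) (h2 n hn) l r
    simp only [fc_map] at h3
    exact h3

end Pool.Agent.Results.MP_96e181_an.RationalTranslates
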