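import Mathlib
import Pool.Agent.V11104.RF2

/-!
# Random measures invariant under multiplication by `p`, with a law stationary under `×q`

The relative form of Furstenberg's theorem for measures: `σ` is a measure-preserving map of a
probability space `(Ω, P)` and `κ ω`, `ω ∈ Ω`, is a random probability measure on the circle, almost
surely invariant under `x ↦ p x`, such that the measure `P ⊗ κ` on `Ω × 𝕋` is invariant under
`(ω, x) ↦ (σ ω, q x)` (for instance `κ (σ ω)` is the image of `κ ω` under `x ↦ q x` for almost every
`ω`). No ergodicity and no entropy is assumed, and `(Ω, P, σ)` is arbitrary.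
-/

set_option autoImplicit false

open MeasureTheory ProbabilityTheory Filter

/-- Almost surely the support of `κ ω` is a finite set of points of finite order or the whole
circle, and almost surely the restriction of `κ ω` to the points of infinite order (the atomless
part of `κ ω`) is zero or has full support. -/
theorem Pool.Agent.Results.MP_96e181_an.RelativeSupport.result.{u} :
    ∀ (p q : ℕ), 2 ≤ p → 2 ≤ q → Irrational (Real.log p / Real.log q) →
      ∀ (Ω : Type u) [MeasurableSpace Ω] (P : Measure Ω) [IsProbabilityMeasure P] (σ : Ω → Ω)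
        (κ : Kernel Ω UnitAddCircle) [IsMarkovKernel κ],
        MeasurePreserving (fun z : Ω × UnitAddCircle => (σ z.1, q • z.2)) (P ⊗ₘ κ) (P ⊗ₘ κ) →
        (∀ᵐ ω ∂P, MeasurePreserving (fun x : UnitAddCircle => p • x) (κ ω) (κ ω)) →
        ∀ᵐ ω ∂P,
          ((∃ A : Set UnitAddCircle, A.Finite ∧ (∀ x ∈ A, IsOfFinAddOrder x) ∧ κ ω Aᶜ = 0) ∨
            ∀ U : Set UnitAddCircle, IsOpen U → U.Nonempty → 0 < κ ω U) ∧
          (κ ω {x | ¬ IsOfFinAddOrder x} = 0 ∨
            ∀ U : Set UnitAddCircle, IsOpen U → U.Nonempty →
              0 < κ ω (U \ {x | IsOfFinAddOrder x})) := by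
  intro p q hp hq hirr Ω _ P _ σ κ _ h1 h2
  have hind := Pool.Agent.H705R2.mulIndep_of_irrational hp hq hirr
  filter_upwards [Pool.Agent.V11104.RF.ker_supp hp hq hind h1 h2,
    Pool.Agent.V11104.RF.ker hp hq hind h1 h2] with ω a b
  exact ⟨a, b⟩
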